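import Pool.Agent.H211.CH.Stm

/-!
# Chebyshev maps: up (statement S_C2)
-/

set_option autoImplicit false

open Polynomial

namespace Pool.Agent.H603.CH211

open Pool.Agent.H211.CH

universe u

variable {K : Type u} [Field K]

/-- a polynomial is a product of different linear factors times a square -/
theorem decomp_multiset (s : Multiset K) : ∃ (S : Finset K) (H : K[X]),
    (s.map fun a => X - C a).prod = (∏ a ∈ S, (X - C a)) * H ^ 2 := by
  classical
  induction s using Multiset.induction_on with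
  | empty => exact ⟨∅, 1, by simp⟩
  | cons a s ih =>
    obtain ⟨S, H, h⟩ := ih
    rw [Multiset.map_cons, Multiset.prod_cons, h]
    by_cases ha : a ∈ S
    · refine ⟨S.erase a, (X - C a) * H, ?_⟩
      rw [← Finset.mul_prod_erase S (fun a => X - C a) ha]
      ring
    · refine ⟨insert a S, H, ?_⟩
      rw [Finset.prod_insert ha]
      ring

theorem decomp [IsAlgClosed K] (A : K[X]) : ∃ (S : Finset K) (H : K[X]),
    A = (∏ a ∈ S, (X - C a)) * H ^ 2 := by
  obtain ⟨S, H, h⟩ := decomp_multiset A.roots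
  obtain ⟨r, hr⟩ := IsAlgClosed.exists_pow_nat_eq A.leadingCoeff (n := 2) (by norm_num)
  refine ⟨S, C r * H, ?_⟩
  have h1 := (IsAlgClosed.splits A).eq_prod_roots
  rw [h] at h1
  rw [h1, ← hr]
  simp only [map_pow]
  ring

theorem comp_ne {A Y : K[X]} (hA : A ≠ 0) (hY : 0 < Y.natDegree) : A.comp Y ≠ 0 := by
  intro h
  rcases comp_eq_zero_iff.mp h with h | h
  · exact hA h
  · have h2 := h.2
    rw [h2, natDegree_C] at hY
    exact lt_irrefl _ hY

theorem t_C2 {K : Type u} [Field K] [IsAlgClosed K] [CharZero K] : S_C2 K := by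
  classical
  intro F p Y hF hF2 hp hFp
  obtain ⟨w₁, w₂, hw, G, hG⟩ := hF
  -- the degree of Y
  have hYF : Y.natDegree = F.natDegree := by
    have h1 := congrArg natDegree hFp
    rw [natDegree_comp, natDegree_comp, mul_comm] at h1
    exact (Nat.eq_of_mul_eq_mul_left hp h1).symm
  have hY2 : 2 ≤ Y.natDegree := by rw [hYF]; exact hF2
  have hY0 : 0 < Y.natDegree := by omega
  obtain ⟨A, hA⟩ : ∃ A : K[X], A = (p - C w₁) * (p - C w₂) := ⟨_, rfl⟩
  have hd1 : (p - C w₁).natDegree = p.natDegree := natDegree_sub_C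
  have hd2 : (p - C w₂).natDegree = p.natDegree := natDegree_sub_C
  have hn1 : p - C w₁ ≠ 0 := by
    intro h
    rw [h, natDegree_zero] at hd1
    omega
  have hn2 : p - C w₂ ≠ 0 := by
    intro h
    rw [h, natDegree_zero] at hd2
    omega
  have hA0 : A ≠ 0 := by
    rw [hA]
    exact mul_ne_zero hn1 hn2
  have hAd : A.natDegree = 2 * p.natDegree := by
    rw [hA, natDegree_mul hn1 hn2, hd1, hd2]
    ring
  have hAY : A.comp Y = A * (G.comp p) ^ 2 := by
    have h1 := congrArg (fun f => f.comp p) hG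
    simp only [mul_comp, sub_comp, X_comp, C_comp, pow_comp] at h1
    rw [hFp] at h1
    rw [hA, mul_comp, sub_comp, sub_comp, C_comp, C_comp, h1]
  obtain ⟨S, H, hNH⟩ := decomp A
  obtain ⟨N, hN⟩ : ∃ N : K[X], N = ∏ a ∈ S, (X - C a) := ⟨_, rfl⟩
  rw [← hN] at hNH
  have hNm : N.Monic := by
    rw [hN]
    exact monic_prod_of_monic _ _ fun a _ => monic_X_sub_C a
  have hNd : N.natDegree = S.card := by
    rw [hN, natDegree_prod_of_monic _ _ fun a _ => monic_X_sub_C a]
    simp
  have hNsep : N.Separable := by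
    rw [hN]
    exact separable_prod_X_sub_C_iff'.mpr fun x _ y _ h => h
  have hN0 : N ≠ 0 := hNm.ne_zero
  have hH0 : H ≠ 0 := by
    intro h
    rw [hNH, h] at hA0
    simp at hA0
  have hHY : H.comp Y ≠ 0 := comp_ne hH0 hY0
  -- the product N (N ∘ Y) is a square
  have h1 : (N * N.comp Y) * (H.comp Y) ^ 2 = (N * H * G.comp p) ^ 2 := by
    have h2 : N.comp Y * (H.comp Y) ^ 2 = N * H ^ 2 * (G.comp p) ^ 2 := by
      rw [hNH, mul_comp, pow_comp] at hAY
      exact hAY
    linear_combination N * h2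
  have h2 : H.comp Y ∣ N * H * G.comp p := by
    rw [← IsIntegrallyClosed.pow_dvd_pow_iff (n := 2) (by norm_num), ← h1]
    exact dvd_mul_left _ _
  obtain ⟨M, hM⟩ := h2
  have h3 : N * N.comp Y = M ^ 2 := by
    rw [hM, mul_pow] at h1
    have h4 : (H.comp Y) ^ 2 ≠ 0 := pow_ne_zero _ hHY
    apply mul_right_cancel₀ h4
    rw [h1]
    ring
  have h4 : N ∣ M := hNsep.squarefree.isRadical 2 M ⟨N.comp Y, h3.symm⟩
  obtain ⟨M₁, hM₁⟩ := h4
  have h5 : N.comp Y = N * M₁ ^ 2 := by
    apply mul_left_cancel₀ hN0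
    rw [h3, hM₁]
    ring
  have hNY : N.comp Y ≠ 0 := comp_ne hN0 hY0
  have hM₁0 : M₁ ≠ 0 := by
    intro h
    rw [h5, h] at hNY
    simp at hNY
  -- differentiate
  have h6 : M₁ ∣ derivative Y := by
    have h7 : M₁ ∣ derivative Y * (derivative N).comp Y := by
      rw [← derivative_comp, h5, derivative_mul, derivative_pow]
      refine dvd_add ?_ ?_
      · exact Dvd.dvd.mul_left (dvd_pow_self _ (by norm_num)) _
      · refine Dvd.dvd.mul_left (Dvd.dvd.mul_right ?_ _) _
        exact Dvd.dvd.mul_left (by simp) _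
    have h8 : IsCoprime M₁ ((derivative N).comp Y) := by
      obtain ⟨a, b, hab⟩ := hNsep
      refine ⟨a.comp Y * (N * M₁), b.comp Y, ?_⟩
      have h9 := congrArg (fun f => f.comp Y) hab
      simp only [add_comp, mul_comp, one_comp] at h9
      rw [h5] at h9
      linear_combination h9
    exact h8.dvd_of_dvd_mul_right h7
  have hY' : derivative Y ≠ 0 := by
    intro h
    have := derivative_eq_zero.mp h
    omega
  have h7 : M₁.natDegree ≤ Y.natDegree - 1 :=
    (natDegree_le_of_dvd h6 hY').trans (natDegree_derivative_le Y)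
  have h8 : S.card * Y.natDegree = S.card + 2 * M₁.natDegree := by
    have h9 := congrArg natDegree h5
    rw [natDegree_comp, natDegree_mul hN0 (pow_ne_zero _ hM₁0), natDegree_pow, hNd] at h9
    exact h9
  have h9 : S.card ≤ 2 := by
    obtain ⟨d, hd⟩ : ∃ d, Y.natDegree = d + 2 := ⟨Y.natDegree - 2, by omega⟩
    rw [hd] at h7 h8
    by_contra hc
    push Not at hc
    have h10 : 3 * (d + 1) ≤ S.card * (d + 1) := Nat.mul_le_mul_right _ hc
    have h11 : S.card * (d + 2) = S.card * (d + 1) + S.card := by ring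
    omega
  have h10 : 2 * p.natDegree = S.card + 2 * H.natDegree := by
    rw [← hAd, hNH, natDegree_mul hN0 (pow_ne_zero _ hH0), natDegree_pow, hNd]
  have h11 : S.card = 0 ∨ S.card = 2 := by omega
  rcases h11 with h11 | h11
  · -- the square
    exfalso
    rw [Finset.card_eq_zero] at h11
    have hN1 : N = 1 := by rw [hN, h11, Finset.prod_empty]
    rw [hN1, one_mul, hA] at hNH
    obtain ⟨e, he⟩ : ∃ e : K, e = (w₁ - w₂) / 2 := ⟨_, rfl⟩
    obtain ⟨m, hm⟩ : ∃ m : K, m = (w₁ + w₂) / 2 := ⟨_, rfl⟩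
    have he0 : e ≠ 0 := by
      rw [he]
      exact div_ne_zero (sub_ne_zero.mpr hw) two_ne_zero
    have hw1 : w₁ = m + e := by rw [he, hm]; ring
    have hw2 : w₂ = m - e := by rw [he, hm]; ring
    have h12 : (p - C m - H) * (p - C m + H) = C (e ^ 2) := by
      have h13 : (p - C m - H) * (p - C m + H) = (p - C m) ^ 2 - H ^ 2 := by ring
      rw [h13, ← hNH, hw1, hw2]
      simp only [map_add, map_sub, map_pow]
      ring
    have h13 : C (e ^ 2) ≠ (0 : K[X]) := by
      rw [Ne, C_eq_zero]
      exact pow_ne_zero _ he0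
    have h14 : p - C m - H ≠ 0 := by
      intro h
      rw [h, zero_mul] at h12
      exact h13 h12.symm
    have h15 : p - C m + H ≠ 0 := by
      intro h
      rw [h, mul_zero] at h12
      exact h13 h12.symm
    have h16 := congrArg natDegree h12
    rw [natDegree_mul h14 h15, natDegree_C] at h16
    have h17 : (C (2:K) * (p - C m)).natDegree ≤ 0 := by
      have h18 : C (2:K) * (p - C m) = (p - C m - H) + (p - C m + H) := by
        rw [show (C (2:K) : K[X]) = 2 from rfl]
        ring
      rw [h18]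
      refine (natDegree_add_le _ _).trans ?_
      rw [max_le_iff]
      omega
    rw [natDegree_C_mul (two_ne_zero), natDegree_sub_C] at h17
    omega
  · -- two points
    obtain ⟨v₁, v₂, hv, hS⟩ := Finset.card_eq_two.mp h11
    have hN2 : N = (X - C v₁) * (X - C v₂) := by
      rw [hN, hS, Finset.prod_pair hv]
    refine ⟨v₁, v₂, hv, M₁, ?_⟩
    rw [← hN2, ← h5, hN2, mul_comp, sub_comp, sub_comp, X_comp, C_comp, C_comp]

end Pool.Agent.H603.CH211
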